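import Pool.Agent.MP_4b7180_co.Penta
import Pool.Agent.MP_4b7180_co.Explicit
import Pool.Agent.MP_4b7180_co.Cycle5

/-!
# A strongly fan-planar graph all of whose strongly fan-planar drawings need three colours

The graph `GG` is a `K_6` (a wheel with rim `1, 2, 3, 4, 5` and hub `0` together with the five
diagonals of the rim) with a `K_7` glued on each of the ten edges of the wheel. In every simple
drawing of `K_7` in which the edges crossing a given edge have a common endpoint, the crossed edges
form a connected graph; this implies that no edge of the wheel is crossed by an edge of the `K_6`,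
and then the parity of the number of crossings of a `K_5` shows that the five diagonals cross
cyclically. All parities are winding numbers of `(s, t) ↦ γ(s) - δ(t)`.
-/

namespace Pool.Agent.Results.MP_4b7180_co.OddCrossingCycle

open Pool.Agent.MP_4b7180_co

/-- There is a strongly fan-planar graph `G` such that the intersection graph of every strongly
fan-planar drawing of `G` contains an odd cycle (a cycle of length five). -/
theorem result : ∃ (V : Type) (_ : Fintype V) (G : SimpleGraph V),
    (∃ D : Drawing G, D.IsStronglyFanPlanar) ∧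
      ∀ D : Drawing G, D.IsStronglyFanPlanar →
        ∃ (e : G.edgeSet) (c : D.crossingGraph.Walk e e), c.IsCycle ∧ Odd c.length := by
  refine ⟨Fin 56, inferInstance, GG, exists_drawing, fun D hD => ?_⟩
  obtain ⟨h1, h2, h3, h4, h5⟩ := pentagram D hD.simple hD.fan
  have n1 : (s(1, 3) : Sym2 (Fin 56)) ≠ s(3, 5) := by decide
  have n2 : (s(1, 3) : Sym2 (Fin 56)) ≠ s(4, 1) := by decide
  have n3 : (s(2, 4) : Sym2 (Fin 56)) ≠ s(4, 1) := by decide
  have n4 : (s(2, 4) : Sym2 (Fin 56)) ≠ s(5, 2) := by decide
  have n5 : (s(3, 5) : Sym2 (Fin 56)) ≠ s(5, 2) := by decide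
  obtain ⟨w, hw, hl⟩ := exists_cycle_five D.crossingGraph
    (a := ⟨s(1, 3), h1.1⟩) (b := ⟨s(2, 4), h2.1⟩) (c := ⟨s(3, 5), h3.1⟩) (d := ⟨s(4, 1), h4.1⟩)
    (e := ⟨s(5, 2), h5.1⟩) h1 h2 h3 h4 h5
    (fun h => absurd (congrArg Subtype.val h) n1) (fun h => absurd (congrArg Subtype.val h) n2)
    (fun h => absurd (congrArg Subtype.val h) n3) (fun h => absurd (congrArg Subtype.val h) n4)
    (fun h => absurd (congrArg Subtype.val h) n5)
  exact ⟨_, w, hw, hl ▸ (by decide)⟩

end Pool.Agent.Results.MP_4b7180_co.OddCrossingCycle
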